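import Pool.Agent.Q33.SB.Stm
import Pool.Agent.Q33.SB.Bas

/-!
Project SB: if `K ⊗ L` is a field and the fibre of the cyclic algebra is split, then `P f` is a norm.
-/

set_option autoImplicit false

open scoped TensorProduct

namespace Pool.Agent.Q224.SB

open Pool.Agent.Q33.SB Module

section

variable {k R L : Type} [Field k] [CommRing R] [Algebra k R] [Field L] [Algebra k L]
  {σ : L ≃ₐ[k] L} {n : ℕ}

theorem free_Cyc (h : IsGen σ n) (f : R) : Module.Free R (Cyc σ n f) :=
  Module.Free.of_equiv (Cyc.equiv f h).symm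

theorem finiteDim (h : IsGen σ n) : FiniteDimensional k L :=
  FiniteDimensional.of_finrank_pos (by rw [h.1]; exact h.2.2)

theorem finite_Cyc (h : IsGen σ n) (f : R) : Module.Finite R (Cyc σ n f) := by
  have := finiteDim h
  exact Module.Finite.equiv (Cyc.equiv f h).symm

theorem finrank_Cyc [Nontrivial R] (h : IsGen σ n) (f : R) : finrank R (Cyc σ n f) = n * n := by
  have := finiteDim h
  rw [(Cyc.equiv f h).finrank_eq, Module.finrank_pi_fintype]
  simp only [Module.finrank_baseChange, h.1, Finset.sum_const, Finset.card_univ, Fintype.card_fin,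
    smul_eq_mul]

end

theorem t_NSP : S_NSP := by
  intro k R L K _ _ _ _ _ _ _ σ n h f P hP hF hS
  letI := P.toAlgebra
  obtain ⟨d, ⟨Φ⟩⟩ := hS
  have hnt : Nontrivial R := P.domain_nontrivial
  have := finiteDim h
  have := free_Cyc h f
  have hd : d = n := by
    have e1 : finrank K (K ⊗[R] Cyc σ n f) = n * n := by
      rw [Module.finrank_baseChange, finrank_Cyc h f]
    rw [Φ.toLinearEquiv.finrank_eq, Module.finrank_matrix] at e1
    simp only [Fintype.card_fin, Module.finrank_self, mul_one] at e1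
    exact Nat.mul_self_inj.1 e1
  subst hd
  -- the representation
  let ρ : Cyc σ d f →+* Matrix (Fin d) (Fin d) K :=
    (Φ : (K ⊗[R] Cyc σ d f) →+* Matrix (Fin d) (Fin d) K).comp
      (Algebra.TensorProduct.includeRight : Cyc σ d f →ₐ[R] K ⊗[R] Cyc σ d f).toRingHom
  have hρ : ∀ r : R, ρ (algebraMap R _ r) = algebraMap K _ (P r) := by
    intro r
    have e1 : (Algebra.TensorProduct.includeRight : Cyc σ d f →ₐ[R] K ⊗[R] Cyc σ d f)
        (algebraMap R _ r) = algebraMap K (K ⊗[R] Cyc σ d f) (P r) := by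
      rw [AlgHom.commutes]
      exact IsScalarTower.algebraMap_apply R K (K ⊗[R] Cyc σ d f) r
    change Φ ((Algebra.TensorProduct.includeRight : Cyc σ d f →ₐ[R] K ⊗[R] Cyc σ d f)
        (algebraMap R _ r)) = _
    rw [e1, AlgEquiv.commutes]
  let g : L →ₐ[k] Matrix (Fin d) (Fin d) K :=
    { (ρ.comp ((Cyc.dl f h : (R ⊗[k] L) →+* Cyc σ d f).comp
        (Algebra.TensorProduct.includeRight : L →ₐ[k] R ⊗[k] L).toRingHom)) with
      commutes' := by
        intro a
        change ρ (Cyc.dl f h ((Algebra.TensorProduct.includeRight : L →ₐ[k] R ⊗[k] L)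
          (algebraMap k L a))) = _
        rw [AlgHom.commutes, IsScalarTower.algebraMap_apply k R (R ⊗[k] L), AlgHom.commutes, hρ, hP,
          ← IsScalarTower.algebraMap_apply] }
  have hg : ∀ x : L, g x = ρ (Cyc.dl f h ((1 : R) ⊗ₜ[k] x)) := fun x => rfl
  have hcm : ∀ (c : K) (x : L), Commute (Algebra.ofId K (Matrix (Fin d) (Fin d) K) c) (g x) :=
    fun c x => Algebra.commutes c (g x)
  let ψ : K ⊗[k] L →ₐ[K] Matrix (Fin d) (Fin d) K :=
    Algebra.TensorProduct.lift (Algebra.ofId K _) g hcm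
  have hψ : ∀ (c : K) (x : L), ψ (c ⊗ₜ x) = c • g x := by
    intro c x
    change Algebra.TensorProduct.lift (Algebra.ofId K _) g hcm (c ⊗ₜ x) = _
    rw [Algebra.TensorProduct.lift_tmul, Algebra.ofId_apply, Algebra.smul_def]
  set E : Matrix (Fin d) (Fin d) K := ρ (Cyc.e σ d f) with hE
  have hEψ : ∀ m : K ⊗[k] L, E * ψ m = ψ (sg K σ m) * E := by
    intro m
    induction m with
    | zero => simp
    | tmul c x =>
      rw [hψ, sg_tmul, hψ, Matrix.mul_smul, Matrix.smul_mul, hg, hg, hE, ← map_mul, ← map_mul,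
        Cyc.e_mul_dl, sg_tmul]
    | add a b ha hb => rw [map_add, map_add, map_add, mul_add, add_mul, ha, hb]
  have hEn : E ^ d = algebraMap K _ (P f) := by
    rw [hE, ← map_pow, Cyc.e_pow_n f h, hρ]
  -- a vector
  have hd0 : 0 < d := h.2.2
  let v : Fin d → K := fun _ => 1
  have hv : v ≠ 0 := fun hc => one_ne_zero (congr_fun hc ⟨0, hd0⟩)
  let A : (K ⊗[k] L) →ₗ[K] (Fin d → K) :=
    { toFun := fun m => (ψ m).mulVec v
      map_add' := fun a b => by rw [map_add, Matrix.add_mulVec]
      map_smul' := fun c a => by rw [map_smul, Matrix.smul_mulVec, RingHom.id_apply] }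
  have hA : ∀ m, A m = (ψ m).mulVec v := fun m => rfl
  have hAinj : Function.Injective A := by
    rw [injective_iff_map_eq_zero]
    intro m hm
    by_contra hm0
    obtain ⟨m', hm'⟩ := hF.mul_inv_cancel hm0
    have h1 : (ψ (m' * m)).mulVec v = 0 := by
      rw [map_mul, ← Matrix.mulVec_mulVec, ← hA, hm, Matrix.mulVec_zero]
    rw [mul_comm, hm', map_one, Matrix.one_mulVec] at h1
    exact hv h1
  have hAsurj : Function.Surjective A := by
    refine (LinearMap.injective_iff_surjective_of_finrank_eq_finrank ?_).1 hAinj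
    rw [Module.finrank_baseChange, h.1, Module.finrank_fin_fun]
  obtain ⟨y, hy⟩ := hAsurj (E.mulVec v)
  refine ⟨y, hAinj ?_⟩
  have key : ∀ j : ℕ, (E ^ j).mulVec v = (ψ (∏ i ∈ Finset.range j, ((sg K σ) ^ i) y)).mulVec v := by
    intro j
    induction j with
    | zero => simp
    | succ j ih =>
      rw [pow_succ', ← Matrix.mulVec_mulVec, ih, Matrix.mulVec_mulVec, hEψ, ← Matrix.mulVec_mulVec,
        ← hy, hA, Matrix.mulVec_mulVec, ← map_mul, map_prod, Finset.prod_range_succ', pow_zero]
      simp only [pow_succ', AlgEquiv.mul_apply, AlgEquiv.one_apply]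
  rw [hA, hA]
  have h2 := key d
  rw [hEn] at h2
  change (ψ (∏ i ∈ Finset.range d, ((sg K σ) ^ i) y)).mulVec v = _
  rw [← h2, AlgHom.commutes]

end Pool.Agent.Q224.SB
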