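import Pool.Agent.Q33.SB.Stm
import Pool.Agent.Q33.SB.Bas
import Pool.Agent.Q224.SB.Nsp

/-!
Project SB: the cyclic algebra is an Azumaya algebra.
-/

set_option autoImplicit false

open scoped TensorProduct

namespace Pool.Agent.Q224.SB

open Pool.Agent.Q33.SB Module

section

variable {k R L : Type} [Field k] [CommRing R] [Algebra k R] [Field L] [Algebra k L]
  {σ : L ≃ₐ[k] L} {n : ℕ}

/-- the generator `e` as a unit -/
noncomputable def eU (h : IsGen σ n) (f : Rˣ) : (Cyc σ n (f : R))ˣ where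
  val := Cyc.e σ n (f : R)
  inv := Cyc.e σ n (f : R) ^ (n - 1) * algebraMap R _ ((f⁻¹ : Rˣ) : R)
  val_inv := by
    have hn := h.2.2
    rw [← mul_assoc, ← pow_succ', Nat.sub_add_cancel hn, Cyc.e_pow_n (f : R) h, ← map_mul,
      Units.mul_inv, map_one]
  inv_val := by
    have hn := h.2.2
    rw [mul_assoc, Algebra.commutes, ← mul_assoc, ← pow_succ, Nat.sub_add_cancel hn,
      Cyc.e_pow_n (f : R) h, ← map_mul, Units.mul_inv, map_one]

theorem pow_mod_gen (h : IsGen σ n) (j : ℕ) : σ ^ j = σ ^ (j % n) := by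
  conv_rhs => rw [← h.2.1]
  rw [pow_mod_orderOf]

end

section

variable {k R L : Type} [Field k] [CommRing R] [Algebra k R] [Field L]
  [Algebra k L] {σ : L ≃ₐ[k] L} {n : ℕ}

theorem surj_main (hLIN : S_LIN) (h : IsGen σ n) (f : Rˣ) :
    Function.Surjective (AlgHom.mulLeftRight R (Cyc σ n (f : R))) := by
  classical
  obtain ⟨ι, _, x, y, hxy, hT⟩ := hLIN k R L σ n h
  set B := Cyc σ n (f : R) with hB
  set S : Subalgebra R (Module.End R B) := (AlgHom.mulLeftRight R B).range with hS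
  have hl : ∀ a : B, LinearMap.mulLeft R a ∈ S := by
    intro a
    refine ⟨a ⊗ₜ 1, ?_⟩
    ext1 X
    change AlgHom.mulLeftRight R B (a ⊗ₜ 1) X = _
    rw [AlgHom.mulLeftRight_apply, MulOpposite.unop_one, mul_one, LinearMap.mulLeft_apply]
  have hr : ∀ a : B, LinearMap.mulRight R a ∈ S := by
    intro a
    refine ⟨1 ⊗ₜ (MulOpposite.op a), ?_⟩
    ext1 X
    change AlgHom.mulLeftRight R B (1 ⊗ₜ (MulOpposite.op a)) X = _
    rw [AlgHom.mulLeftRight_apply, MulOpposite.unop_op, one_mul, LinearMap.mulRight_apply]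
  -- the projections
  have hxy' : ∀ j : ℕ, ∑ i, x i * (σ ^ j) (y i) = if j % n = 0 then 1 else 0 := by
    intro j
    rw [pow_mod_gen h j]
    exact hxy _ (Nat.mod_lt _ h.2.2)
  set π : Fin n → Module.End R B := fun a => ∑ i, LinearMap.mulLeft R (Cyc.dl (f : R) h (1 ⊗ₜ x i)) *
    LinearMap.mulRight R (Cyc.dl (f : R) h (1 ⊗ₜ (σ ^ (n - (a : ℕ))) (y i))) with hπ
  have hπS : ∀ a, π a ∈ S := fun a => Subalgebra.sum_mem _ fun i _ => mul_mem (hl _) (hr _)
  have hπX : ∀ (a : Fin n) (X : B), π a X =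
      Cyc.dl (f : R) h (Cyc.equiv (f : R) h X a) * Cyc.e σ n (f : R) ^ (a : ℕ) := by
    intro a X
    have e1 : ∀ (r : Fin n) (z : R ⊗[k] L), π a (Cyc.dl (f : R) h z * Cyc.e σ n (f : R) ^ (r : ℕ)) =
        if r = a then Cyc.dl (f : R) h z * Cyc.e σ n (f : R) ^ (r : ℕ) else 0 := by
      intro r z
      rw [hπ]
      simp only [LinearMap.sum_apply, Module.End.mul_apply, LinearMap.mulLeft_apply,
        LinearMap.mulRight_apply]
      have e2 : ∀ i, Cyc.dl (f : R) h (1 ⊗ₜ x i) * (Cyc.dl (f : R) h z *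
          Cyc.e σ n (f : R) ^ (r : ℕ) * Cyc.dl (f : R) h (1 ⊗ₜ (σ ^ (n - (a : ℕ))) (y i))) =
          Cyc.dl (f : R) h (1 ⊗ₜ (x i * (σ ^ ((r : ℕ) + (n - (a : ℕ)))) (y i))) *
            (Cyc.dl (f : R) h z * Cyc.e σ n (f : R) ^ (r : ℕ)) := by
        intro i
        rw [mul_assoc (Cyc.dl (f : R) h z), Cyc.e_pow_mul_dl, sg_pow_tmul, ← mul_assoc, ← mul_assoc,
          ← map_mul, ← map_mul, ← mul_assoc, ← map_mul, pow_add, AlgEquiv.mul_apply]
        congr 2
        have e3 : (1 : R) ⊗ₜ[k] (x i * (σ ^ (r : ℕ)) ((σ ^ (n - (a : ℕ))) (y i))) =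
            ((1 : R) ⊗ₜ[k] x i) * ((1 : R) ⊗ₜ[k] ((σ ^ (r : ℕ)) ((σ ^ (n - (a : ℕ))) (y i)))) := by
          rw [Algebra.TensorProduct.tmul_mul_tmul, one_mul]
        rw [e3]
        ring
      rw [Finset.sum_congr rfl fun i _ => e2 i, ← Finset.sum_mul, ← map_sum, ← TensorProduct.tmul_sum,
        hxy']
      have hr := r.2
      have ha := a.2
      by_cases hra : r = a
      · have h1 : ((r : ℕ) + (n - (a : ℕ))) % n = 0 := by
          rw [hra]
          have : (a : ℕ) + (n - (a : ℕ)) = n := by omega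
          rw [this, Nat.mod_self]
        rw [if_pos h1, if_pos hra]
        have : (1 : R) ⊗ₜ[k] (1 : L) = 1 := rfl
        rw [this, map_one, one_mul]
      · have hne : (r : ℕ) ≠ a := fun hc => hra (Fin.ext hc)
        have h1 : ¬ ((r : ℕ) + (n - (a : ℕ))) % n = 0 := by
          intro hc
          obtain ⟨q, hq⟩ := Nat.dvd_of_mod_eq_zero hc
          have hq1 : q < 2 := by
            by_contra hcon
            push Not at hcon
            have := Nat.mul_le_mul_left n hcon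
            omega
          interval_cases q <;> omega
        rw [if_neg h1, if_neg hra, TensorProduct.tmul_zero, map_zero, zero_mul]
    conv_lhs => rw [Cyc.eq_sum (f : R) h X, map_sum]
    rw [Finset.sum_congr rfl fun r _ => e1 r _, Finset.sum_ite_eq' Finset.univ a,
      if_pos (Finset.mem_univ a)]
  -- every endomorphism
  intro T
  change T ∈ S
  have hco : ∀ l a : Fin n, ∃ m : ℕ → R ⊗[k] L, ∀ z,
      Cyc.equiv (f : R) h (T (Cyc.dl (f : R) h z * Cyc.e σ n (f : R) ^ (a : ℕ))) l =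
        ∑ j ∈ Finset.range n, m j * ((sg R σ) ^ j) z := by
    intro l a
    obtain ⟨m, hm⟩ := hT ((LinearMap.proj l).comp ((Cyc.equiv (f : R) h).toLinearMap.comp
      (T.comp ((LinearMap.mulRight R (Cyc.e σ n (f : R) ^ (a : ℕ))).comp
        (Cyc.dl (f : R) h).toLinearMap))))
    exact ⟨m, fun z => hm z⟩
  choose m hm using hco
  set u := eU h f with hu
  have hue : ((u : (Cyc σ n (f : R))ˣ) : B) = Cyc.e σ n (f : R) := rfl
  have hTe : T = ∑ a : Fin n, ∑ l : Fin n, ∑ j ∈ Finset.range n,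
      LinearMap.mulLeft R (Cyc.dl (f : R) h (m l a j) * Cyc.e σ n (f : R) ^ j) *
        (LinearMap.mulRight R (((u⁻¹ ^ (a : ℕ) * u⁻¹ ^ j * u ^ (l : ℕ) : Bˣ) : B)) * π a) := by
    ext1 X
    simp only [LinearMap.sum_apply, Module.End.mul_apply, LinearMap.mulLeft_apply,
      LinearMap.mulRight_apply, hπX]
    conv_lhs => rw [Cyc.eq_sum (f : R) h X, map_sum]
    refine Finset.sum_congr rfl fun a _ => ?_
    rw [Cyc.eq_sum (f : R) h (T _)]
    refine Finset.sum_congr rfl fun l _ => ?_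
    rw [hm, map_sum, Finset.sum_mul]
    refine Finset.sum_congr rfl fun j _ => ?_
    rw [map_mul]
    have e1 : Cyc.e σ n (f : R) ^ j * Cyc.dl (f : R) h (Cyc.equiv (f : R) h X a) =
        Cyc.dl (f : R) h (((sg R σ) ^ j) (Cyc.equiv (f : R) h X a)) * Cyc.e σ n (f : R) ^ j :=
      Cyc.e_pow_mul_dl (f : R) h j _
    have e2 : Cyc.e σ n (f : R) ^ j * (Cyc.e σ n (f : R) ^ (a : ℕ) *
        ((u⁻¹ ^ (a : ℕ) * u⁻¹ ^ j * u ^ (l : ℕ) : Bˣ) : B)) = Cyc.e σ n (f : R) ^ (l : ℕ) := by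
      rw [← hue, ← Units.val_pow_eq_pow_val, ← Units.val_pow_eq_pow_val, ← Units.val_pow_eq_pow_val,
        ← Units.val_mul, ← Units.val_mul]
      congr 1
      group
    calc Cyc.dl (f : R) h (m l a j) * Cyc.dl (f : R) h (((sg R σ) ^ j) (Cyc.equiv (f : R) h X a)) *
          Cyc.e σ n (f : R) ^ (l : ℕ)
        = Cyc.dl (f : R) h (m l a j) * (Cyc.dl (f : R) h (((sg R σ) ^ j)
            (Cyc.equiv (f : R) h X a)) * (Cyc.e σ n (f : R) ^ j * (Cyc.e σ n (f : R) ^ (a : ℕ) *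
          ((u⁻¹ ^ (a : ℕ) * u⁻¹ ^ j * u ^ (l : ℕ) : Bˣ) : B)))) := by rw [e2, mul_assoc]
      _ = Cyc.dl (f : R) h (m l a j) * (Cyc.e σ n (f : R) ^ j *
            Cyc.dl (f : R) h (Cyc.equiv (f : R) h X a) * (Cyc.e σ n (f : R) ^ (a : ℕ) *
          ((u⁻¹ ^ (a : ℕ) * u⁻¹ ^ j * u ^ (l : ℕ) : Bˣ) : B))) := by
          rw [e1, mul_assoc (Cyc.dl (f : R) h (((sg R σ) ^ j) (Cyc.equiv (f : R) h X a)))]
      _ = _ := by simp only [mul_assoc]
  rw [hTe]
  exact Subalgebra.sum_mem _ fun a _ => Subalgebra.sum_mem _ fun l _ => Subalgebra.sum_mem _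
    fun j _ => mul_mem (hl _) (mul_mem (hr _) (hπS a))

end

theorem t_AZU : S_AZU := by
  intro hLIN k R L _ _ _ _ _ _ σ n h f
  have h1 := free_Cyc h (f : R)
  have h2 := finite_Cyc h (f : R)
  have h3 : Nontrivial (Cyc σ n (f : R)) := by
    by_contra hcon
    rw [not_nontrivial_iff_subsingleton] at hcon
    have h4 := finrank_Cyc h (f : R)
    rw [Module.finrank_zero_of_subsingleton] at h4
    have := Nat.mul_pos h.2.2 h.2.2
    omega
  have hsurj := surj_main hLIN h f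
  have h5 : finrank R ((Cyc σ n (f : R)) ⊗[R] (Cyc σ n (f : R))ᵐᵒᵖ) =
      finrank R (Module.End R (Cyc σ n (f : R))) := by
    rw [Module.finrank_tensorProduct, Module.finrank_linearMap,
      ← (MulOpposite.opLinearEquiv R : (Cyc σ n (f : R)) ≃ₗ[R] (Cyc σ n (f : R))ᵐᵒᵖ).finrank_eq]
  have h6 : Module.Free R (Cyc σ n (f : R))ᵐᵒᵖ :=
    Module.Free.of_equiv (MulOpposite.opLinearEquiv R)
  have h7 : Module.Finite R (Cyc σ n (f : R))ᵐᵒᵖ :=
    Module.Finite.equiv (MulOpposite.opLinearEquiv R)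
  let E := LinearEquiv.ofFinrankEq ((Cyc σ n (f : R)) ⊗[R] (Cyc σ n (f : R))ᵐᵒᵖ)
    (Module.End R (Cyc σ n (f : R))) h5
  have hinj : Function.Injective (AlgHom.mulLeftRight R (Cyc σ n (f : R))) := by
    have h8 : Function.Surjective (E.symm.toLinearMap ∘ₗ
        (AlgHom.mulLeftRight R (Cyc σ n (f : R))).toLinearMap) :=
      E.symm.surjective.comp hsurj
    have h9 := OrzechProperty.injective_of_surjective_endomorphism _ h8
    exact Function.Injective.of_comp h9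
  exact { bij := ⟨hinj, hsurj⟩ }

end Pool.Agent.Q224.SB
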